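import Mathlib

set_option autoImplicit false

namespace Pool.Agent.Results.MP_1004d8_al.Affine

@[ext] structure G (p : ℕ) where
  a : (ZMod p)ˣ
  b : ZMod p

variable {p : ℕ}

instance : Mul (G p) := ⟨fun x y => ⟨x.a * y.a, x.a * y.b + x.b⟩⟩
instance : One (G p) := ⟨⟨1, 0⟩⟩
instance : Inv (G p) := ⟨fun x => ⟨x.a⁻¹, -(x.a⁻¹ * x.b)⟩⟩

@[simp] theorem mul_a (x y : G p) : (x * y).a = x.a * y.a := rfl
@[simp] theorem mul_b (x y : G p) : (x * y).b = x.a * y.b + x.b := rfl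
@[simp] theorem one_a : (1 : G p).a = 1 := rfl
@[simp] theorem one_b : (1 : G p).b = 0 := rfl
@[simp] theorem inv_a (x : G p) : (x⁻¹).a = x.a⁻¹ := rfl
@[simp] theorem inv_b (x : G p) : (x⁻¹).b = -(x.a⁻¹ * x.b) := rfl

instance : Group (G p) := Group.ofLeftAxioms
  (fun x y z => G.ext (by simp [mul_assoc]) (by simp; ring))
  (fun x => G.ext (by simp) (by simp)) (fun x => G.ext (by simp) (by simp))

def eqv : G p ≃ (ZMod p)ˣ × ZMod p := ⟨fun x => (x.a, x.b), fun x => ⟨x.1, x.2⟩, fun _ => rfl,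
  fun _ => rfl⟩

theorem pow1 (a : (ZMod p)ˣ) (n : ℕ) : (⟨a, 0⟩ : G p) ^ n = ⟨a ^ n, 0⟩ := by
  induction n with
  | zero => exact G.ext (by simp) (by simp)
  | succ n ih => rw [pow_succ, ih]; exact G.ext (by simp [pow_succ]) (by simp)

theorem pow2 (n : ℕ) : (⟨1, 1⟩ : G p) ^ n = ⟨1, n⟩ := by
  induction n with
  | zero => exact G.ext rfl (by simp)
  | succ n ih => rw [pow_succ, ih]; exact G.ext (by simp) (by simp [add_comm])

variable [Fact p.Prime]

instance : Finite (G p) := Finite.of_equiv _ eqv.symm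

theorem cardU : Nat.card (ZMod p)ˣ = p - 1 := by
  rw [Nat.card_eq_fintype_card, ZMod.card_units]

theorem cardG : Nat.card (G p) = (p - 1) * p := by
  rw [Nat.card_congr eqv, Nat.card_prod, cardU, Nat.card_zmod]

theorem classes : Nat.card (ConjClasses (G p)) ≤ p := by
  have : Nat.card (Option (ZMod p)ˣ) = p := by
    rw [Finite.card_option, cardU]
    have := (Fact.out : p.Prime).one_le
    omega
  refine (Nat.card_le_card_of_surjective (fun o : Option (ZMod p)ˣ =>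
    o.elim (ConjClasses.mk (⟨1, 1⟩ : G p)) fun a => ConjClasses.mk ⟨a, 0⟩) fun c => ?_).trans this.le
  obtain ⟨x, rfl⟩ := ConjClasses.mk_surjective c
  by_cases h : x.a = 1
  · by_cases h' : x.b = 0
    · exact ⟨some 1, congrArg ConjClasses.mk (G.ext h.symm h'.symm)⟩
    · exact ⟨none, ConjClasses.mk_eq_mk_iff_isConj.2 (isConj_iff.2
        ⟨⟨Units.mk0 _ h', 0⟩, G.ext (by simp [h]) (by simp)⟩)⟩
  · have h1 : (1 : ZMod p) - x.a ≠ 0 := fun e => h (Units.ext (sub_eq_zero.1 e).symm)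
    refine ⟨some x.a, ConjClasses.mk_eq_mk_iff_isConj.2 (isConj_iff.2
        ⟨⟨1, x.b / (1 - x.a)⟩, G.ext (by simp) ?_⟩)⟩
    simp
    field_simp
    ring

theorem result (ε : ℝ) (hε : 0 < ε) :
    ∃ (Γ : Type) (_ : Group Γ) (_ : Finite Γ) (g : Γ) (α : MulAut Γ) (A : Equiv.Perm Γ),
      (∀ x, A x = g * α x) ∧ orderOf A = Nat.card Γ ∧ (commProb Γ : ℝ) < ε := by
  obtain ⟨n, hn⟩ := exists_nat_one_div_lt hε
  obtain ⟨p, hp, hp'⟩ := Nat.exists_infinite_primes (n + 2)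
  have : Fact p.Prime := ⟨hp'⟩
  obtain ⟨a, ha⟩ := IsCyclic.exists_ofOrder_eq_natCard (α := (ZMod p)ˣ)
  rw [cardU] at ha
  set A : Equiv.Perm (G p) := Equiv.mulLeft (⟨a, 0⟩ : G p) * Equiv.mulRight (⟨1, 1⟩ : G p)⁻¹
  have hA : ∀ (k : ℕ) (x : G p), (A ^ k) x = ⟨a ^ k, 0⟩ * x * (⟨1, k⟩ : G p)⁻¹ := by
    intro k x
    rw [← pow1, ← pow2]
    induction k with
    | zero => simp
    | succ k ih =>
      rw [pow_succ', Equiv.Perm.mul_apply, ih, pow_succ', pow_succ' (⟨1, 1⟩ : G p)]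
      simp only [A, Equiv.Perm.mul_apply, Equiv.coe_mulLeft, Equiv.coe_mulRight]
      group
  refine ⟨G p, inferInstance, inferInstance, ⟨a, 0⟩ * (⟨1, 1⟩ : G p)⁻¹, MulAut.conj ⟨1, 1⟩, A,
    fun x => by simp [A, mul_assoc], ?_, ?_⟩
  · rw [cardG]
    refine Nat.dvd_antisymm (orderOf_dvd_of_pow_eq_one (Equiv.ext fun x => ?_)) ?_
    · rw [hA, pow_mul, ← ha, pow_orderOf_eq_one, one_pow, Nat.cast_mul, ZMod.natCast_self, mul_zero]
      exact G.ext (by simp) (by simp)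
    · have := hA (orderOf A) 1
      rw [pow_orderOf_eq_one] at this
      refine Nat.Coprime.mul_dvd_of_dvd_of_dvd ((Nat.coprime_self_sub_left hp'.one_le).2 (by simp))
        (ha ▸ orderOf_dvd_of_pow_eq_one ?_) ((ZMod.natCast_eq_zero_iff _ _).1 ?_)
      · simpa using (congrArg G.a this).symm
      · simpa using (congrArg G.b this).symm
  · obtain ⟨m, rfl⟩ : ∃ m, p = m + 1 := ⟨p - 1, by omega⟩
    rw [commProb_def', cardG]
    have h1 : (Nat.card (ConjClasses (G (m + 1))) : ℝ) ≤ m + 1 := by exact_mod_cast classes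
    have h2 : (n : ℝ) + 1 ≤ m := by exact_mod_cast (by omega : n + 1 ≤ m)
    have h3 : (0 : ℝ) < n + 1 := by positivity
    refine lt_of_le_of_lt ?_ hn
    push_cast [Nat.add_sub_cancel]
    rw [div_le_div_iff₀ (by nlinarith) h3]
    nlinarith

end Pool.Agent.Results.MP_1004d8_al.Affine
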